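import Pool.Agent.MWA.Stmts

/-!
# Block MWA, row W2X: one visible exchange gives all exchanges
-/

namespace Pool.Agent.MWA.H74

open Pool.Agent.Helper14_MV Pool.Agent.Helper2_MV Pool.Agent.MVO Pool.Agent.MWL Pool.Agent.MWS
open Pool.Agent.MWA

theorem lst_unique {k : ℕ} {a : ℕ → ℕ} {i j : ℕ} (h : Lst k a i) (h' : Lst k a j) : i = j := by
  rcases lt_trichotomy i j with hl | hl | hl
  · exact absurd (h.2.2 j hl h'.1) h'.2.1
  · exact hl
  · exact absurd (h'.2.2 i hl h.1) h.2.1

theorem w2x (h1 : W2rStmt) : W2xStmt := by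
  intro θ hθ k a b i e e' hda hdb ha hb hne hr e0
  have key : ∀ f f' : ℕ → Bool, f i = f' i → RR θ (w2 k a b f) (w2 k a b f') := by
    intro f f' hf
    refine h1 θ hθ k a b f f' hda hdb ?_
    intro j hj _
    have : j = i := lst_unique hj ha
    subst this
    exact hf
  show RR θ (w2 k a b e0) (w2 k a b (flp e0 i))
  have hflp : flp e0 i i = !(e0 i) := by simp [flp]
  by_cases h : e0 i = e i
  · have h2 : e' i = flp e0 i i := by
      rw [hflp, h]
      revert hne
      cases e i <;> cases e' i <;> simp
    exact θ.trans (θ.trans (key e0 e h) hr) (key e' (flp e0 i) h2)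
  · have h2 : e0 i = e' i := by
      revert hne h
      cases e i <;> cases e' i <;> cases e0 i <;> simp
    have h3 : e i = flp e0 i i := by
      rw [hflp, h2]
      revert hne
      cases e i <;> cases e' i <;> simp
    exact θ.trans (θ.trans (key e0 e' h2) (θ.symm hr)) (key e (flp e0 i) h3)

end Pool.Agent.MWA.H74
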